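import Pool.Agent.R788.FE.Polar

/-!
# MP_f0e28a_gt, Q1: facially exposed spectrahedra with facially exposed polars and arbitrary
facial dimension signature.

For every nonempty finite set `I` of nonnegative integers there is a spectrahedron
`S ⊆ ℝ^(max I)` with signature `I` such that both `S` and its polar are facially exposed.
-/

open Pool.Agent.R788.FE

namespace Pool.Agent.Results.MP_f0e28a_gt.ExposedPolar

lemma univ_case (n : ℕ) :
    IsSpectrahedron (Set.univ : Set (E n)) ∧ signature (Set.univ : Set (E n)) = {n} ∧
      FaciallyExposed (Set.univ : Set (E n)) ∧ FaciallyExposed (polarSet (Set.univ : Set (E n))) := by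
  have hface : ∀ F : Set (E n), IsFace Set.univ F → F.Nonempty → F = Set.univ := by
    intro F hF hne
    obtain ⟨x, hx⟩ := hne
    refine Set.eq_univ_of_forall fun y => ?_
    exact mem_face_of_extend hF hx (Set.mem_univ y) one_pos (Set.mem_univ _)
  refine ⟨?_, ?_, ?_, ?_⟩
  · refine isSpectrahedron_of_form (ι := Empty) Set.univ 0 0 ?_ ?_ ?_
    · exact Matrix.isSymm_zero
    · intro l; exact Matrix.isSymm_zero
    · intro X; simp
  · ext k
    simp only [Set.mem_singleton_iff]
    have hd : dimSet (Set.univ : Set (E n)) = n := by
      unfold dimSet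
      have : vectorSpan ℝ (Set.univ : Set (E n)) = ⊤ := by
        rw [← direction_affineSpan, AffineSubspace.span_univ, AffineSubspace.direction_top]
      rw [this, finrank_top, finrank_euclideanSpace, Fintype.card_fin]
    constructor
    · rintro ⟨F, hF, hne, rfl⟩
      rw [hface F hF hne, hd]
    · rintro rfl
      exact ⟨Set.univ, isFace_self convex_univ, Set.univ_nonempty, hd⟩
  · intro F hF hne hprop
    exact absurd (hface F hF hne) hprop
  · have hpol : polarSet (Set.univ : Set (E n)) = {0} := by
      ext y
      constructor
      · intro hy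
        by_contra hne
        have h0 : 0 < inner ℝ y y := by
          rw [real_inner_self_eq_norm_sq]
          have : 0 < ‖y‖ := norm_pos_iff.mpr hne
          positivity
        have h := hy ((2 / inner ℝ y y) • y) (Set.mem_univ _)
        rw [real_inner_smul_left, div_mul_cancel₀ _ h0.ne'] at h
        linarith
      · rintro rfl x _
        simp
    rw [hpol]
    intro F hF hne hprop
    obtain ⟨x, hx⟩ := hne
    exfalso
    apply hprop
    refine Set.Subset.antisymm hF.2.1 ?_
    rintro y rfl
    have : x = 0 := hF.2.1 hx
    exact this ▸ hx

/-- Main theorem. -/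
theorem result :
    ∀ (I : Finset ℕ) (hI : I.Nonempty), ∃ S : Set (E (I.max' hI)),
      IsSpectrahedron S ∧ signature S = (I : Set ℕ) ∧ FaciallyExposed S ∧
        FaciallyExposed (polarSet S) := by
  intro I hI
  by_cases hJe : (I.erase (I.max' hI)).Nonempty
  · -- main case
    set d := I.max' hI with hd
    set J := I.erase d with hJ
    have hlt : ∀ i ∈ J, i < d := by
      intro i hi
      have h1 := Finset.mem_erase.mp hi
      exact lt_of_le_of_ne (I.le_max' i h1.2) h1.1
    obtain ⟨N, hN⟩ : ∃ N, d = N + 1 := by
      obtain ⟨i, hi⟩ := hJe
      exact ⟨d - 1, by have := hlt i hi; omega⟩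
    have hbody : ∃ S : Set (E (N + 1)),
      IsSpectrahedron S ∧ signature S = (I : Set ℕ) ∧ FaciallyExposed S ∧
        FaciallyExposed (polarSet S) := by
      have hle : ∀ i ∈ J, i ≤ N := fun i hi => by have := hlt i hi; omega
      refine ⟨body N J, body_isSpectrahedron J hle, ?_, body_faciallyExposed hle, ?_⟩
      · rw [signature_body hle]
        ext i
        simp only [Finset.mem_coe]
        constructor
        · rintro (h | h)
          · exact (Finset.mem_erase.mp h).2
          · rw [h, ← hN, hd]; exact I.max'_mem hI
        · intro h
          by_cases hid : i = d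
          · exact Or.inr (hid.trans hN)
          · exact Or.inl (Finset.mem_erase.mpr ⟨hid, h⟩)
      · exact polar_faciallyExposed (i0 := J.min' hJe) (J.min'_mem hJe)
          (fun i hi => ⟨J.min'_le i hi, hle i hi⟩)
    rw [hN]
    exact hbody
  · refine ⟨Set.univ, ?_⟩
    have hI1 : (I : Set ℕ) = {I.max' hI} := by
      rw [Finset.not_nonempty_iff_eq_empty] at hJe
      ext i
      simp only [Finset.mem_coe, Set.mem_singleton_iff]
      constructor
      · intro h
        by_contra hne
        have : i ∈ I.erase (I.max' hI) := Finset.mem_erase.mpr ⟨hne, h⟩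
        rw [hJe] at this
        exact absurd this (Finset.notMem_empty i)
      · rintro h
        rw [h]; exact I.max'_mem hI
    rw [hI1]
    exact univ_case _

end Pool.Agent.Results.MP_f0e28a_gt.ExposedPolar
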