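import Mathlib
import Pool.Agent.R788.FE.Neg5

/-!
MP_f0e28a_gt, with the normalisation `0 ∈ S`: the set `{0, 2, 3}` is not the facial dimension
signature of any closed convex set (in particular of any spectrahedron) containing the origin that
is facially exposed together with its polar.
-/

open Module Submodule Pool.Agent.R788.FE

namespace Pool.Agent.Results.MP_f0e28a_gt.OriginInside

/-- A spectrahedron is closed and convex. -/
lemma spectrahedron_closed_convex {n : ℕ} {S : Set (E n)} (h : IsSpectrahedron S) :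
    Convex ℝ S ∧ IsClosed S := by
  obtain ⟨m, A0, A, hA0, hA, rfl⟩ := h
  have hsym : ∀ x : E n, (A0 + ∑ i, x i • A i).IsSymm := by
    intro x
    refine Matrix.IsSymm.ext ?_
    intro p q
    simp only [Matrix.add_apply, Matrix.sum_apply, Matrix.smul_apply, hA0.apply p q,
      fun l => (hA l).apply p q]
  have hform : {x : E n | (A0 + ∑ i, x i • A i).PosSemidef} =
      ⋂ v : Fin m → ℝ, {x : E n | 0 ≤ ∑ p, ∑ q, v p * (A0 p q + ∑ l, x l * A l p q) * v q} := by
    ext x
    rw [Set.mem_ofPred_eq, posSemidef_real_iff (hsym x), Set.mem_iInter]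
    simp only [Matrix.add_apply, Matrix.sum_apply, Matrix.smul_apply, smul_eq_mul,
      Set.mem_ofPred_eq]
  rw [hform]
  constructor
  · refine convex_iInter fun v => ?_
    intro x hx y hy a b ha hb hab
    rw [Set.mem_ofPred_eq] at hx hy ⊢
    have e : ∑ p, ∑ q, v p * (A0 p q + ∑ l, (a • x + b • y) l * A l p q) * v q =
        a * (∑ p, ∑ q, v p * (A0 p q + ∑ l, x l * A l p q) * v q) +
          b * (∑ p, ∑ q, v p * (A0 p q + ∑ l, y l * A l p q) * v q) := by
      rw [Finset.mul_sum, Finset.mul_sum, ← Finset.sum_add_distrib]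
      refine Finset.sum_congr rfl fun p _ => ?_
      rw [Finset.mul_sum, Finset.mul_sum, ← Finset.sum_add_distrib]
      refine Finset.sum_congr rfl fun q _ => ?_
      have e1 : ∑ l, (a • x + b • y) l * A l p q =
          a * ∑ l, x l * A l p q + b * ∑ l, y l * A l p q := by
        rw [Finset.mul_sum, Finset.mul_sum, ← Finset.sum_add_distrib]
        refine Finset.sum_congr rfl fun l _ => ?_
        simp only [PiLp.add_apply, PiLp.smul_apply, smul_eq_mul]
        ring
      rw [e1]
      have hb' : b = 1 - a := by linarith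
      subst hb'
      ring
    rw [e]
    positivity
  · refine isClosed_iInter fun v => ?_
    refine isClosed_le continuous_const ?_
    fun_prop

/-- Main theorem. -/
theorem result :
    (∀ n : ℕ, ¬ ∃ S : Set (E n), Convex ℝ S ∧ IsClosed S ∧ (0 : E n) ∈ S ∧
      signature S = {0, 2, 3} ∧ FaciallyExposed S ∧ FaciallyExposed (polarSet S)) ∧
    (∀ n : ℕ, ¬ ∃ S : Set (E n), IsSpectrahedron S ∧ (0 : E n) ∈ S ∧
      signature S = {0, 2, 3} ∧ FaciallyExposed S ∧ FaciallyExposed (polarSet S)) := by
  refine ⟨?_, ?_⟩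
  · rintro n ⟨S, h1, h2, h3, h4, h5, h6⟩
    exact Bad.false ⟨h1, h2, h3, h4, h5, h6⟩
  · rintro n ⟨S, h1, h3, h4, h5, h6⟩
    exact Bad.false ⟨(spectrahedron_closed_convex h1).1, (spectrahedron_closed_convex h1).2, h3,
      h4, h5, h6⟩

end Pool.Agent.Results.MP_f0e28a_gt.OriginInside
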